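import Pool.Agent.H83.LS.Targets1

/-!
Velocities on the light cone are transversal.
-/

set_option autoImplicit false

namespace Pool.Agent.H67.LS

open MeasureTheory Set Pool.Agent.H83.LS
open scoped ENNReal NNReal

lemma sqrt_sq_w (a σ : ℝ) : Real.sqrt (1 + a ^ 2 * σ ^ 2) ^ 2 = 1 + a ^ 2 * σ ^ 2 :=
  Real.sq_sqrt (by positivity)

lemma one_le_w (a σ : ℝ) : 1 ≤ Real.sqrt (1 + a ^ 2 * σ ^ 2) := by
  rw [Real.one_le_sqrt]
  have : 0 ≤ a ^ 2 * σ ^ 2 := by positivity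
  linarith

lemma gr_fst (a σ : ℝ) : (gr a σ).1 = -σ ^ 2 / (Real.sqrt (1 + a ^ 2 * σ ^ 2) *
    (Real.sqrt (1 + a ^ 2 * σ ^ 2) + 1)) := by
  have h1 := one_le_w a σ
  unfold gr hh dh
  simp only
  set w := Real.sqrt (1 + a ^ 2 * σ ^ 2)
  have : 0 < w := by linarith
  field_simp
  ring

lemma gr_snd (a σ : ℝ) : (gr a σ).2 = σ / Real.sqrt (1 + a ^ 2 * σ ^ 2) := rfl

/-- the half angle parameter -/
noncomputable def hu (a σ : ℝ) : ℝ := σ / (Real.sqrt (1 + a ^ 2 * σ ^ 2) + 1)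

lemma gr_hu (a σ : ℝ) : (gr a σ).1 = -2 * (hu a σ) ^ 2 / (1 + a ^ 2 * (hu a σ) ^ 2) ∧
    (gr a σ).2 = 2 * hu a σ / (1 + a ^ 2 * (hu a σ) ^ 2) := by
  have h1 := one_le_w a σ
  have h2 := sqrt_sq_w a σ
  rw [gr_fst, gr_snd]
  unfold hu
  set w := Real.sqrt (1 + a ^ 2 * σ ^ 2)
  have hw : 0 < w := by linarith
  have e : 1 + a ^ 2 * (σ / (w + 1)) ^ 2 = 2 * w / (w + 1) := by
    field_simp
    nlinarith
  rw [e]
  constructor
  · field_simp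
  · field_simp

lemma hu_bound (a σ : ℝ) (hσ : |σ| ≤ 1) : |hu a σ| ≤ 1 / 2 := by
  have h1 := one_le_w a σ
  unfold hu
  rw [abs_div, abs_of_pos (by linarith : 0 < Real.sqrt (1 + a ^ 2 * σ ^ 2) + 1), div_le_iff₀ (by linarith)]
  linarith

lemma sigma_hu (a σ : ℝ) : σ = 2 * hu a σ / (1 - a ^ 2 * (hu a σ) ^ 2) := by
  have h1 := one_le_w a σ
  have h2 := sqrt_sq_w a σ
  unfold hu
  set w := Real.sqrt (1 + a ^ 2 * σ ^ 2)
  have hw : 0 < w := by linarith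
  have e : 1 - a ^ 2 * (σ / (w + 1)) ^ 2 = 2 / (w + 1) := by
    field_simp
    nlinarith
  rw [e]
  field_simp

lemma hu_sep (a σ σ' : ℝ) (ha : a ∈ Icc (0 : ℝ) 1) (hσ : |σ| ≤ 1) (hσ' : |σ'| ≤ 1) :
    |σ - σ'| ≤ 5 * |hu a σ - hu a σ'| := by
  have b1 := hu_bound a σ hσ
  have b2 := hu_bound a σ' hσ'
  have e1 := sigma_hu a σ
  have e2 := sigma_hu a σ'
  set u := hu a σ
  set v := hu a σ'
  have ha2 : 0 ≤ a ^ 2 ∧ a ^ 2 ≤ 1 := by
    refine ⟨by positivity, ?_⟩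
    have := ha.1; have := ha.2
    nlinarith
  have hu2 : u ^ 2 ≤ 1 / 4 := by
    have := sq_abs u
    have := abs_nonneg u
    nlinarith
  have hv2 : v ^ 2 ≤ 1 / 4 := by
    have := sq_abs v
    have := abs_nonneg v
    nlinarith
  have p1 : a ^ 2 * u ^ 2 ≤ 1 / 4 := by
    have := mul_le_mul ha2.2 hu2 (sq_nonneg u) (by norm_num)
    linarith
  have p2 : a ^ 2 * v ^ 2 ≤ 1 / 4 := by
    have := mul_le_mul ha2.2 hv2 (sq_nonneg v) (by norm_num)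
    linarith
  have q1 : 0 < 1 - a ^ 2 * u ^ 2 := by linarith
  have q2 : 0 < 1 - a ^ 2 * v ^ 2 := by linarith
  have e3 : σ - σ' = (u - v) * (2 * (1 + a ^ 2 * (u * v)) /
      ((1 - a ^ 2 * u ^ 2) * (1 - a ^ 2 * v ^ 2))) := by
    have q1' := q1.ne'
    have q2' := q2.ne'
    rw [e1, e2, div_sub_div _ _ q1' q2', ← mul_div_assoc]
    congr 1
    ring
  have huv : |u * v| ≤ 1 / 4 := by
    rw [abs_mul]
    have := mul_le_mul b1 b2 (abs_nonneg v) (by norm_num : (0 : ℝ) ≤ 1 / 2)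
    linarith
  have huv' := abs_le.mp huv
  have p3 : a ^ 2 * (u * v) ≤ 1 / 4 := by nlinarith [huv'.2, ha2.1, ha2.2]
  have p4 : -(1 / 4) ≤ a ^ 2 * (u * v) := by nlinarith [huv'.1, ha2.1, ha2.2]
  have e4 : |2 * (1 + a ^ 2 * (u * v)) / ((1 - a ^ 2 * u ^ 2) * (1 - a ^ 2 * v ^ 2))| ≤ 5 := by
    rw [abs_of_nonneg (by
      apply div_nonneg
      · linarith
      · positivity), div_le_iff₀ (by positivity)]
    nlinarith [mul_le_mul (by linarith : (3 : ℝ) / 4 ≤ 1 - a ^ 2 * u ^ 2)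
      (by linarith : (3 : ℝ) / 4 ≤ 1 - a ^ 2 * v ^ 2) (by norm_num) (by linarith)]
  rw [e3, abs_mul]
  nlinarith [abs_nonneg (u - v)]

lemma det_formula (a : ℝ) (s : Fin 3 → ℝ) : det3 (fun i => -gr a (s i)) =
    4 * ((hu a (s 1) - hu a (s 0)) * (hu a (s 2) - hu a (s 0)) * (hu a (s 2) - hu a (s 1))) /
      ((1 + a ^ 2 * (hu a (s 0)) ^ 2) * (1 + a ^ 2 * (hu a (s 1)) ^ 2) *
        (1 + a ^ 2 * (hu a (s 2)) ^ 2)) := by
  unfold det3
  simp only [Prod.fst_neg, Prod.snd_neg]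
  rw [(gr_hu a (s 0)).1, (gr_hu a (s 0)).2, (gr_hu a (s 1)).1, (gr_hu a (s 1)).2,
    (gr_hu a (s 2)).1, (gr_hu a (s 2)).2]
  set x := hu a (s 0)
  set y := hu a (s 1)
  set z := hu a (s 2)
  have h0 : 0 < 1 + a ^ 2 * x ^ 2 := by positivity
  have h1 : 0 < 1 + a ^ 2 * y ^ 2 := by positivity
  have h2 : 0 < 1 + a ^ 2 * z ^ 2 := by positivity
  field_simp
  ring

lemma det_lower (κ : ℝ) (hκ : 0 < κ) (a : ℝ) (ha : a ∈ Icc (0 : ℝ) 1) (s : Fin 3 → ℝ)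
    (hs : ∀ i, |s i| ≤ 1) (hsep : ∀ i j, i ≠ j → κ ≤ |s i - s j|) :
    κ ^ 3 / 125 ≤ |det3 (fun i => -gr a (s i))| := by
  rw [det_formula]
  have k1 : ∀ i j, i ≠ j → κ / 5 ≤ |hu a (s i) - hu a (s j)| := by
    intro i j hij
    have := hu_sep a (s i) (s j) ha (hs i) (hs j)
    have := hsep i j hij
    linarith
  have k2 : ∀ i, 1 + a ^ 2 * (hu a (s i)) ^ 2 ≤ 5 / 4 := by
    intro i
    have b := hu_bound a (s i) (hs i)
    have b2 : (hu a (s i)) ^ 2 ≤ 1 / 4 := by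
      have := sq_abs (hu a (s i))
      have := abs_nonneg (hu a (s i))
      nlinarith
    have ha2 : a ^ 2 ≤ 1 := by
      have := ha.1; have := ha.2
      nlinarith
    have := mul_le_mul ha2 b2 (sq_nonneg _) (by norm_num)
    linarith
  have k3 : ∀ i, 0 < 1 + a ^ 2 * (hu a (s i)) ^ 2 := fun i => by positivity
  have h10 := k1 1 0 (by decide)
  have h20 := k1 2 0 (by decide)
  have h21 := k1 2 1 (by decide)
  rw [abs_div, abs_mul, abs_mul, abs_mul, abs_of_pos (by positivity : (0 : ℝ) < 4),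
    abs_of_pos (mul_pos (mul_pos (k3 0) (k3 1)) (k3 2)),
    le_div_iff₀ (mul_pos (mul_pos (k3 0) (k3 1)) (k3 2))]
  have n1 : (κ / 5) * (κ / 5) * (κ / 5) ≤ |hu a (s 1) - hu a (s 0)| *
      |hu a (s 2) - hu a (s 0)| * |hu a (s 2) - hu a (s 1)| := by
    gcongr
  have n2 : (1 + a ^ 2 * (hu a (s 0)) ^ 2) * (1 + a ^ 2 * (hu a (s 1)) ^ 2) *
        (1 + a ^ 2 * (hu a (s 2)) ^ 2) ≤ (5 / 4) * (5 / 4) * (5 / 4) := by
    have := k2 0; have := k2 1; have := k2 2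
    have := k3 0; have := k3 1; have := k3 2
    gcongr
  have hk3 : 0 < κ ^ 3 := by positivity
  nlinarith

lemma hasDeriv_w (a σ : ℝ) : HasDerivAt (fun x => Real.sqrt (1 + a ^ 2 * x ^ 2))
    (a ^ 2 * σ / Real.sqrt (1 + a ^ 2 * σ ^ 2)) σ := by
  have h0 : HasDerivAt (fun x : ℝ => 1 + a ^ 2 * x ^ 2) (a ^ 2 * (2 * σ)) σ := by
    have := ((hasDerivAt_pow 2 σ).const_mul (a ^ 2)).const_add 1
    simpa using this
  have h1 := h0.sqrt (by positivity)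
  convert h1 using 1
  have := one_le_w a σ
  field_simp

lemma hasDeriv_Y (a σ : ℝ) : HasDerivAt (fun x => (gr a x).2)
    (1 / Real.sqrt (1 + a ^ 2 * σ ^ 2) ^ 3) σ := by
  have h1 := one_le_w a σ
  have h2 := sqrt_sq_w a σ
  have hw : 0 < Real.sqrt (1 + a ^ 2 * σ ^ 2) := by linarith
  have hd := (hasDerivAt_id σ).div (hasDeriv_w a σ) hw.ne'
  have e : (fun x => (gr a x).2) = fun x => id x / Real.sqrt (1 + a ^ 2 * x ^ 2) := by
    funext x; rfl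
  rw [e]
  refine HasDerivAt.congr_deriv hd ?_
  show (1 * Real.sqrt (1 + a ^ 2 * σ ^ 2) - σ * (a ^ 2 * σ / Real.sqrt (1 + a ^ 2 * σ ^ 2))) /
    Real.sqrt (1 + a ^ 2 * σ ^ 2) ^ 2 = _
  set w := Real.sqrt (1 + a ^ 2 * σ ^ 2)
  have e3 : σ * (a ^ 2 * σ / w) = (w ^ 2 - 1) / w := by
    rw [h2]; ring
  rw [e3]
  field_simp
  ring

lemma hasDeriv_X (a σ : ℝ) : HasDerivAt (fun x => (gr a x).1)
    (-σ / Real.sqrt (1 + a ^ 2 * σ ^ 2) ^ 3) σ := by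
  have h1 := one_le_w a σ
  have h2 := sqrt_sq_w a σ
  have hw : 0 < Real.sqrt (1 + a ^ 2 * σ ^ 2) := by linarith
  have hw1 : 0 < Real.sqrt (1 + a ^ 2 * σ ^ 2) + 1 := by linarith
  have hd1 := (hasDeriv_w a σ).mul ((hasDeriv_w a σ).add_const 1)
  have hd2 := ((hasDerivAt_pow 2 σ).neg).div hd1 (mul_pos hw hw1).ne'
  have e : (fun x => (gr a x).1) = fun x => -x ^ 2 / (Real.sqrt (1 + a ^ 2 * x ^ 2) *
    (Real.sqrt (1 + a ^ 2 * x ^ 2) + 1)) := by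
    funext x; exact gr_fst a x
  rw [e]
  refine HasDerivAt.congr_deriv hd2 ?_
  show (-(((2 : ℕ) : ℝ) * σ ^ (2 - 1)) * (Real.sqrt (1 + a ^ 2 * σ ^ 2) *
    (Real.sqrt (1 + a ^ 2 * σ ^ 2) + 1)) - (-σ ^ 2) *
    (a ^ 2 * σ / Real.sqrt (1 + a ^ 2 * σ ^ 2) * (Real.sqrt (1 + a ^ 2 * σ ^ 2) + 1) +
    Real.sqrt (1 + a ^ 2 * σ ^ 2) * (a ^ 2 * σ / Real.sqrt (1 + a ^ 2 * σ ^ 2)))) /
    (Real.sqrt (1 + a ^ 2 * σ ^ 2) * (Real.sqrt (1 + a ^ 2 * σ ^ 2) + 1)) ^ 2 = _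
  set w := Real.sqrt (1 + a ^ 2 * σ ^ 2)
  have e3 : (-σ ^ 2) * (a ^ 2 * σ / w * (w + 1) + w * (a ^ 2 * σ / w)) =
      -((w ^ 2 - 1) * (σ / w * (w + 1) + σ)) := by
    rw [h2]
    field_simp
    ring
  rw [e3]
  have e4 : ((2 : ℕ) : ℝ) = 2 := by norm_num
  rw [e4]
  field_simp
  ring

lemma lip_aux (f f' : ℝ → ℝ) (hf : ∀ x, HasDerivAt f (f' x) x) (hb : ∀ x, |x| ≤ 4 → |f' x| ≤ 4)
    (x y : ℝ) (hx : |x| ≤ 4) (hy : |y| ≤ 4) : |f x - f y| ≤ 4 * |x - y| := by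
  have := Convex.norm_image_sub_le_of_norm_hasDerivWithin_le (f := f) (f' := f') (C := 4)
    (s := Icc (-4 : ℝ) 4) (x := y) (y := x) (fun z _ => (hf z).hasDerivWithinAt)
    (fun z hz => by rw [Real.norm_eq_abs]; exact hb z (abs_le.mpr hz)) (convex_Icc _ _)
    (abs_le.mp hy) (abs_le.mp hx)
  simpa only [Real.norm_eq_abs] using this

theorem det : T_DET := by
  refine ⟨?_, ?_, ?_⟩
  · intro κ hκ
    refine ⟨κ ^ 3 / 125, by positivity, ?_⟩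
    intro a ha s hs hsep
    exact det_lower κ hκ a ha s hs hsep
  · intro a ha σ σ' hσ hσ'
    rw [Prod.norm_def]
    have hw3 : ∀ x : ℝ, 1 ≤ Real.sqrt (1 + a ^ 2 * x ^ 2) ^ 3 := fun x => one_le_pow₀ (one_le_w a x)
    apply max_le
    · rw [Prod.fst_sub, Real.norm_eq_abs]
      apply lip_aux (fun x => (gr a x).1) (fun x => -x / Real.sqrt (1 + a ^ 2 * x ^ 2) ^ 3)
        (fun x => hasDeriv_X a x) _ _ _ hσ hσ'
      intro x hx
      rw [abs_div, abs_neg, abs_of_pos (by have := hw3 x; linarith :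
        0 < Real.sqrt (1 + a ^ 2 * x ^ 2) ^ 3), div_le_iff₀ (by have := hw3 x; linarith)]
      have := hw3 x
      linarith
    · rw [Prod.snd_sub, Real.norm_eq_abs]
      apply lip_aux (fun x => (gr a x).2) (fun x => 1 / Real.sqrt (1 + a ^ 2 * x ^ 2) ^ 3)
        (fun x => hasDeriv_Y a x) _ _ _ hσ hσ'
      intro x hx
      rw [abs_div, abs_one, abs_of_pos (by have := hw3 x; linarith :
        0 < Real.sqrt (1 + a ^ 2 * x ^ 2) ^ 3), div_le_iff₀ (by have := hw3 x; linarith)]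
      have := hw3 x
      linarith
  · intro a ha σ hσ
    have h1 := one_le_w a σ
    have hw : 0 < Real.sqrt (1 + a ^ 2 * σ ^ 2) := by linarith
    have b1 : |(gr a σ).1| ≤ σ ^ 2 / 2 := by
      rw [gr_fst, abs_div, abs_neg, abs_of_nonneg (sq_nonneg σ), abs_of_pos (by positivity)]
      apply div_le_div_of_nonneg_left (sq_nonneg σ) (by norm_num)
      nlinarith
    have b2 : |(gr a σ).2| ≤ |σ| := by
      rw [gr_snd, abs_div, abs_of_pos hw, div_le_iff₀ hw]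
      nlinarith [abs_nonneg σ]
    have hs : σ ^ 2 = |σ| ^ 2 := (sq_abs σ).symm
    constructor
    · rw [Prod.norm_def]
      apply max_le
      · rw [Real.norm_eq_abs]
        nlinarith [abs_nonneg σ]
      · rw [Real.norm_eq_abs]; linarith
    · intro h2
      rw [Prod.norm_def]
      apply max_le
      · rw [Real.norm_eq_abs]
        nlinarith [abs_nonneg σ]
      · rw [Real.norm_eq_abs]; linarith

end Pool.Agent.H67.LS
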