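import Pool.Agent.H83.LS.Targets1

/-!
Loomis–Whitney for three transversal directions.
-/

set_option autoImplicit false

namespace Pool.Agent.H67.LS

open MeasureTheory Set Pool.Agent.H83.LS
open scoped ENNReal NNReal

/-- Cauchy–Schwarz -/
lemma cs {α : Type*} [MeasurableSpace α] (μ : Measure α) (f g : α → ℝ≥0∞) (hf : Measurable f)
    (hg : Measurable g) : ∫⁻ x, (f x) ^ (1 / 2 : ℝ) * (g x) ^ (1 / 2 : ℝ) ∂μ ≤
      (∫⁻ x, f x ∂μ) ^ (1 / 2 : ℝ) * (∫⁻ x, g x ∂μ) ^ (1 / 2 : ℝ) := by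
  have h := ENNReal.lintegral_mul_le_Lp_mul_Lq μ Real.HolderConjugate.two_two
    (f := fun x => (f x) ^ (1 / 2 : ℝ)) (g := fun x => (g x) ^ (1 / 2 : ℝ))
    (hf.pow_const _).aemeasurable (hg.pow_const _).aemeasurable
  simp only [Pi.mul_apply] at h
  refine h.trans (le_of_eq ?_)
  have e1 : ∀ z : ℝ≥0∞, (z ^ (1 / 2 : ℝ)) ^ (2 : ℝ) = z := by
    intro z
    rw [← ENNReal.rpow_mul]
    norm_num
  simp only [e1]

/-- the linear change of variables in the plane -/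
lemma plane_change (p q r s : ℝ) (h : p * s - r * q ≠ 0) (F : ℝ × ℝ → ℝ≥0∞) (hF : Measurable F) :
    ∫⁻ b : ℝ, ∫⁻ c : ℝ, F (b * p + c * r, b * q + c * s) =
      ENNReal.ofReal |(p * s - r * q)⁻¹| * ∫⁻ y : ℝ × ℝ, F y := by
  let L : ℝ × ℝ →ₗ[ℝ] ℝ × ℝ :=
    { toFun := fun z => (z.1 * p + z.2 * r, z.1 * q + z.2 * s)
      map_add' := by intro x y; ext <;> simp <;> ring
      map_smul' := by intro m x; ext <;> simp <;> ring }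
  have hL : ∀ z, L z = (z.1 * p + z.2 * r, z.1 * q + z.2 * s) := fun z => rfl
  have hdet : LinearMap.det L = p * s - r * q := by
    rw [← LinearMap.det_toMatrix (Module.Basis.finTwoProd ℝ), Matrix.det_fin_two]
    simp [LinearMap.toMatrix_apply, hL]
  have hLm : Measurable L := by
    have : (fun z => L z) = fun z : ℝ × ℝ => (z.1 * p + z.2 * r, z.1 * q + z.2 * s) := by
      funext z; exact hL z
    show Measurable (fun z => L z)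
    rw [this]
    fun_prop
  have hmap := Measure.map_linearMap_addHaar_eq_smul_addHaar (volume : Measure (ℝ × ℝ)) (f := L)
    (by rw [hdet]; exact h)
  rw [hdet] at hmap
  have h1 : ∫⁻ z : ℝ × ℝ, F (L z) = ENNReal.ofReal |(p * s - r * q)⁻¹| * ∫⁻ y : ℝ × ℝ, F y := by
    rw [← lintegral_map hF hLm, hmap, lintegral_smul_measure, smul_eq_mul]
  rw [← h1, Measure.volume_eq_prod,
    lintegral_prod (fun z => F (L z)) (hF.comp hLm).aemeasurable]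
  rfl

/-- the core inequality -/
lemma core (G0 G1 G2 : ℝ × ℝ → ℝ≥0∞) (h0 : Measurable G0) (h1 : Measurable G1)
    (h2 : Measurable G2) :
    ∫⁻ a : ℝ, ∫⁻ c : ℝ, ∫⁻ b : ℝ, (G0 (b, c)) ^ (1 / 2 : ℝ) * (G1 (a, c)) ^ (1 / 2 : ℝ) *
      (G2 (a, b)) ^ (1 / 2 : ℝ) ≤
    (∫⁻ b : ℝ, ∫⁻ c : ℝ, G0 (b, c)) ^ (1 / 2 : ℝ) * (∫⁻ a : ℝ, ∫⁻ c : ℝ, G1 (a, c)) ^ (1 / 2 : ℝ) *
      (∫⁻ a : ℝ, ∫⁻ b : ℝ, G2 (a, b)) ^ (1 / 2 : ℝ) := by
  have m0 : Measurable (fun c : ℝ => ∫⁻ b : ℝ, G0 (b, c)) :=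
    Measurable.lintegral_prod_left h0
  have m1 : Measurable (fun a : ℝ => ∫⁻ c : ℝ, G1 (a, c)) :=
    Measurable.lintegral_prod_right h1
  have m2 : Measurable (fun a : ℝ => ∫⁻ b : ℝ, G2 (a, b)) :=
    Measurable.lintegral_prod_right h2
  calc ∫⁻ a : ℝ, ∫⁻ c : ℝ, ∫⁻ b : ℝ, (G0 (b, c)) ^ (1 / 2 : ℝ) * (G1 (a, c)) ^ (1 / 2 : ℝ) *
      (G2 (a, b)) ^ (1 / 2 : ℝ)
      ≤ ∫⁻ a : ℝ, ∫⁻ c : ℝ, (G1 (a, c)) ^ (1 / 2 : ℝ) * ((∫⁻ b : ℝ, G0 (b, c)) ^ (1 / 2 : ℝ) *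
        (∫⁻ b : ℝ, G2 (a, b)) ^ (1 / 2 : ℝ)) := by
        apply lintegral_mono; intro a
        apply lintegral_mono; intro c
        simp only
        have e1 : ∀ b : ℝ, (G0 (b, c)) ^ (1 / 2 : ℝ) * (G1 (a, c)) ^ (1 / 2 : ℝ) *
            (G2 (a, b)) ^ (1 / 2 : ℝ) = (G1 (a, c)) ^ (1 / 2 : ℝ) *
            ((G0 (b, c)) ^ (1 / 2 : ℝ) * (G2 (a, b)) ^ (1 / 2 : ℝ)) := by
          intro b; ring
        simp only [e1]
        rw [lintegral_const_mul _ (by fun_prop)]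
        gcongr
        exact cs volume (fun b => G0 (b, c)) (fun b => G2 (a, b)) (by fun_prop) (by fun_prop)
    _ ≤ ∫⁻ a : ℝ, (∫⁻ b : ℝ, G2 (a, b)) ^ (1 / 2 : ℝ) *
        ((∫⁻ c : ℝ, ∫⁻ b : ℝ, G0 (b, c)) ^ (1 / 2 : ℝ) * (∫⁻ c : ℝ, G1 (a, c)) ^ (1 / 2 : ℝ)) := by
        apply lintegral_mono; intro a
        simp only
        have e1 : ∀ c : ℝ, (G1 (a, c)) ^ (1 / 2 : ℝ) * ((∫⁻ b : ℝ, G0 (b, c)) ^ (1 / 2 : ℝ) *
            (∫⁻ b : ℝ, G2 (a, b)) ^ (1 / 2 : ℝ)) = (∫⁻ b : ℝ, G2 (a, b)) ^ (1 / 2 : ℝ) *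
            ((∫⁻ b : ℝ, G0 (b, c)) ^ (1 / 2 : ℝ) * (G1 (a, c)) ^ (1 / 2 : ℝ)) := by
          intro c; ring
        simp only [e1]
        rw [lintegral_const_mul _ (by fun_prop)]
        gcongr
        exact cs volume (fun c => ∫⁻ b : ℝ, G0 (b, c)) (fun c => G1 (a, c)) m0 (by fun_prop)
    _ ≤ (∫⁻ c : ℝ, ∫⁻ b : ℝ, G0 (b, c)) ^ (1 / 2 : ℝ) * ((∫⁻ a : ℝ, ∫⁻ b : ℝ, G2 (a, b)) ^ (1 / 2 : ℝ)
        * (∫⁻ a : ℝ, ∫⁻ c : ℝ, G1 (a, c)) ^ (1 / 2 : ℝ)) := by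
        have e1 : ∀ a : ℝ, (∫⁻ b : ℝ, G2 (a, b)) ^ (1 / 2 : ℝ) *
            ((∫⁻ c : ℝ, ∫⁻ b : ℝ, G0 (b, c)) ^ (1 / 2 : ℝ) * (∫⁻ c : ℝ, G1 (a, c)) ^ (1 / 2 : ℝ)) =
            (∫⁻ c : ℝ, ∫⁻ b : ℝ, G0 (b, c)) ^ (1 / 2 : ℝ) * ((∫⁻ b : ℝ, G2 (a, b)) ^ (1 / 2 : ℝ) *
            (∫⁻ c : ℝ, G1 (a, c)) ^ (1 / 2 : ℝ)) := by
          intro a; ring
        simp only [e1]
        rw [lintegral_const_mul _ (by fun_prop)]
        gcongr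
        exact cs volume (fun a => ∫⁻ b : ℝ, G2 (a, b)) (fun a => ∫⁻ c : ℝ, G1 (a, c)) m2 m1
    _ = _ := by
        rw [lintegral_lintegral_swap (f := fun c b => G0 (b, c))
          (by exact (h0.comp measurable_swap).aemeasurable)]
        ring

/-- Loomis–Whitney for three transversal directions -/
theorem lw : T_LW := by
  intro v D f hD hdet hf
  set D0 : ℝ := det3 v with hD0
  have hD0ne : D0 ≠ 0 := by
    intro h; rw [h, abs_zero] at hdet; linarith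
  have hD0pos : 0 < |D0| := abs_pos.mpr hD0ne
  -- differences
  set p : ℝ := (v 1).1 - (v 0).1 with hp
  set q : ℝ := (v 1).2 - (v 0).2 with hq
  set r : ℝ := (v 2).1 - (v 0).1 with hr
  set s : ℝ := (v 2).2 - (v 0).2 with hs
  have hD0' : D0 = p * s - q * r := rfl
  have hdet1 : p * s - r * q = D0 := by rw [hD0']; ring
  have f0 := hf 0
  have f1 := hf 1
  have f2 := hf 2
  -- the three functions
  set G0 : ℝ × ℝ → ℝ≥0∞ := fun z => f 0 (z.1 * p + z.2 * r, z.1 * q + z.2 * s) with hG0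
  set G1 : ℝ × ℝ → ℝ≥0∞ := fun z =>
    f 1 (z.1 * (-p) + z.2 * (r - p), z.1 * (-q) + z.2 * (s - q)) with hG1
  set G2 : ℝ × ℝ → ℝ≥0∞ := fun z =>
    f 2 (z.1 * (-r) + z.2 * (p - r), z.1 * (-s) + z.2 * (q - s)) with hG2
  have mG0 : Measurable G0 := f0.comp (by fun_prop)
  have mG1 : Measurable G1 := f1.comp (by fun_prop)
  have mG2 : Measurable G2 := f2.comp (by fun_prop)
  have i0 : ∫⁻ b : ℝ, ∫⁻ c : ℝ, G0 (b, c) = ENNReal.ofReal |D0⁻¹| * ∫⁻ y : ℝ × ℝ, f 0 y := by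
    have := plane_change p q r s (by rw [hdet1]; exact hD0ne) (f 0) f0
    rw [hdet1] at this
    exact this
  have i1 : ∫⁻ b : ℝ, ∫⁻ c : ℝ, G1 (b, c) = ENNReal.ofReal |D0⁻¹| * ∫⁻ y : ℝ × ℝ, f 1 y := by
    have e : (-p) * (s - q) - (r - p) * (-q) = -D0 := by rw [hD0']; ring
    have := plane_change (-p) (-q) (r - p) (s - q) (by rw [e]; exact neg_ne_zero.mpr hD0ne) (f 1) f1
    rw [e, inv_neg, abs_neg] at this
    exact this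
  have i2 : ∫⁻ b : ℝ, ∫⁻ c : ℝ, G2 (b, c) = ENNReal.ofReal |D0⁻¹| * ∫⁻ y : ℝ × ℝ, f 2 y := by
    have e : (-r) * (q - s) - (p - r) * (-s) = D0 := by rw [hD0']; ring
    have := plane_change (-r) (-s) (p - r) (q - s) (by rw [e]; exact hD0ne) (f 2) f2
    rw [e] at this
    exact this
  -- step 1: translate
  set H : ℝ → ℝ × ℝ → ℝ≥0∞ := fun t x => (f 0 x) ^ (1 / 2 : ℝ) *
    (f 1 (x.1 - t * p, x.2 - t * q)) ^ (1 / 2 : ℝ) *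
    (f 2 (x.1 - t * r, x.2 - t * s)) ^ (1 / 2 : ℝ) with hH
  have mH : Measurable (Function.uncurry H) := by
    have a0 : Measurable (fun z : ℝ × (ℝ × ℝ) => (f 0 z.2) ^ (1 / 2 : ℝ)) :=
      (f0.comp measurable_snd).pow_const _
    have a1 : Measurable (fun z : ℝ × (ℝ × ℝ) => (f 1 (z.2.1 - z.1 * p, z.2.2 - z.1 * q)) ^
        (1 / 2 : ℝ)) := (f1.comp (by fun_prop)).pow_const _
    have a2 : Measurable (fun z : ℝ × (ℝ × ℝ) => (f 2 (z.2.1 - z.1 * r, z.2.2 - z.1 * s)) ^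
        (1 / 2 : ℝ)) := (f2.comp (by fun_prop)).pow_const _
    exact (a0.mul a1).mul a2
  have s1 : ∀ t : ℝ, ∫⁻ x : ℝ × ℝ, ∏ i, (f i (x - t • v i)) ^ (1 / 2 : ℝ) = ∫⁻ x : ℝ × ℝ, H t x := by
    intro t
    rw [← lintegral_add_right_eq_self (μ := (volume : Measure (ℝ × ℝ)))
      (fun x : ℝ × ℝ => ∏ i, (f i (x - t • v i)) ^ (1 / 2 : ℝ)) (t • v 0)]
    apply lintegral_congr
    intro x
    rw [Fin.prod_univ_three]
    have e0 : x + t • v 0 - t • v 0 = x := by abel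
    have e1 : x + t • v 0 - t • v 1 = (x.1 - t * p, x.2 - t * q) := by
      ext <;> simp [hp, hq] <;> ring
    have e2 : x + t • v 0 - t • v 2 = (x.1 - t * r, x.2 - t * s) := by
      ext <;> simp [hr, hs] <;> ring
    rw [e0, e1, e2]
  have s2 : ∫⁻ t : ℝ, ∫⁻ x : ℝ × ℝ, H t x = ∫⁻ x : ℝ × ℝ, ∫⁻ t : ℝ, H t x :=
    lintegral_lintegral_swap mH.aemeasurable
  -- step 3: linear change
  have mK : Measurable (fun x : ℝ × ℝ => ∫⁻ t : ℝ, H t x) :=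
    Measurable.lintegral_prod_left mH
  have s3 : ∫⁻ x : ℝ × ℝ, ∫⁻ t : ℝ, H t x = ENNReal.ofReal |D0| *
      ∫⁻ b : ℝ, ∫⁻ c : ℝ, ∫⁻ t : ℝ, H t (b * p + c * r, b * q + c * s) := by
    have := plane_change p q r s (by rw [hdet1]; exact hD0ne) (fun x => ∫⁻ t : ℝ, H t x) mK
    rw [hdet1] at this
    rw [this, ← mul_assoc, ← ENNReal.ofReal_mul (abs_nonneg _), ← abs_mul,
      mul_inv_cancel₀ hD0ne, abs_one, ENNReal.ofReal_one, one_mul]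
  have s4 : ∀ b c : ℝ, ∫⁻ t : ℝ, H t (b * p + c * r, b * q + c * s) =
      ∫⁻ a : ℝ, (G0 (b, c)) ^ (1 / 2 : ℝ) * (G1 (a, c)) ^ (1 / 2 : ℝ) *
      (G2 (a, b)) ^ (1 / 2 : ℝ) := by
    intro b c
    rw [← lintegral_add_right_eq_self (μ := (volume : Measure ℝ))
      (fun t : ℝ => H t (b * p + c * r, b * q + c * s)) (b + c)]
    apply lintegral_congr
    intro a
    simp only [hH, hG0, hG1, hG2]
    congr 3
    · congr 2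
      · ring
      · ring
    · congr 2
      · ring
      · ring
  have s5 : ∫⁻ b : ℝ, ∫⁻ c : ℝ, ∫⁻ a : ℝ, (G0 (b, c)) ^ (1 / 2 : ℝ) * (G1 (a, c)) ^ (1 / 2 : ℝ) *
      (G2 (a, b)) ^ (1 / 2 : ℝ) = ∫⁻ a : ℝ, ∫⁻ c : ℝ, ∫⁻ b : ℝ, (G0 (b, c)) ^ (1 / 2 : ℝ) *
      (G1 (a, c)) ^ (1 / 2 : ℝ) * (G2 (a, b)) ^ (1 / 2 : ℝ) := by
    have mA1 : Measurable (fun w : ℝ × (ℝ × ℝ) => (G0 (w.1, w.2.1)) ^ (1 / 2 : ℝ) *
        (G1 (w.2.2, w.2.1)) ^ (1 / 2 : ℝ) * (G2 (w.2.2, w.1)) ^ (1 / 2 : ℝ)) :=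
      (((mG0.comp (by fun_prop)).pow_const _).mul ((mG1.comp (by fun_prop)).pow_const _)).mul
        ((mG2.comp (by fun_prop)).pow_const _)
    have t1 : ∀ b : ℝ, ∫⁻ c : ℝ, ∫⁻ a : ℝ, (G0 (b, c)) ^ (1 / 2 : ℝ) *
        (G1 (a, c)) ^ (1 / 2 : ℝ) * (G2 (a, b)) ^ (1 / 2 : ℝ) = ∫⁻ a : ℝ, ∫⁻ c : ℝ,
        (G0 (b, c)) ^ (1 / 2 : ℝ) * (G1 (a, c)) ^ (1 / 2 : ℝ) * (G2 (a, b)) ^ (1 / 2 : ℝ) := by
      intro b
      apply lintegral_lintegral_swap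
      exact (mA1.comp (measurable_const.prodMk measurable_id)).aemeasurable
    simp only [t1]
    have mA2 : Measurable (fun w : (ℝ × ℝ) × ℝ => (G0 (w.1.1, w.2)) ^ (1 / 2 : ℝ) *
        (G1 (w.1.2, w.2)) ^ (1 / 2 : ℝ) * (G2 (w.1.2, w.1.1)) ^ (1 / 2 : ℝ)) :=
      (((mG0.comp (by fun_prop)).pow_const _).mul ((mG1.comp (by fun_prop)).pow_const _)).mul
        ((mG2.comp (by fun_prop)).pow_const _)
    rw [lintegral_lintegral_swap (f := fun b a => ∫⁻ c : ℝ,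
        (G0 (b, c)) ^ (1 / 2 : ℝ) * (G1 (a, c)) ^ (1 / 2 : ℝ) * (G2 (a, b)) ^ (1 / 2 : ℝ))
        (by exact (Measurable.lintegral_prod_right mA2).aemeasurable)]
    apply lintegral_congr
    intro a
    apply lintegral_lintegral_swap
    have mA3 : Measurable (fun w : ℝ × ℝ => (G0 (w.1, w.2)) ^ (1 / 2 : ℝ) *
        (G1 (a, w.2)) ^ (1 / 2 : ℝ) * (G2 (a, w.1)) ^ (1 / 2 : ℝ)) :=
      (((mG0.comp (by fun_prop)).pow_const _).mul ((mG1.comp (by fun_prop)).pow_const _)).mul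
        ((mG2.comp (by fun_prop)).pow_const _)
    exact mA3.aemeasurable
  have s6 := core G0 G1 G2 mG0 mG1 mG2
  rw [i0, i1, i2] at s6
  calc ∫⁻ t : ℝ, ∫⁻ x : ℝ × ℝ, ∏ i, (f i (x - t • v i)) ^ (1 / 2 : ℝ)
      = ENNReal.ofReal |D0| * ∫⁻ a : ℝ, ∫⁻ c : ℝ, ∫⁻ b : ℝ, (G0 (b, c)) ^ (1 / 2 : ℝ) *
      (G1 (a, c)) ^ (1 / 2 : ℝ) * (G2 (a, b)) ^ (1 / 2 : ℝ) := by
        simp only [s1]
        rw [s2, s3]
        simp only [s4]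
        rw [s5]
    _ ≤ ENNReal.ofReal |D0| * ((ENNReal.ofReal |D0⁻¹| * ∫⁻ y : ℝ × ℝ, f 0 y) ^ (1 / 2 : ℝ) *
      (ENNReal.ofReal |D0⁻¹| * ∫⁻ y : ℝ × ℝ, f 1 y) ^ (1 / 2 : ℝ) *
      (ENNReal.ofReal |D0⁻¹| * ∫⁻ y : ℝ × ℝ, f 2 y) ^ (1 / 2 : ℝ)) := by
        gcongr
    _ = ENNReal.ofReal (|D0| * (|D0⁻¹| ^ (1 / 2 : ℝ) * |D0⁻¹| ^ (1 / 2 : ℝ) *
          |D0⁻¹| ^ (1 / 2 : ℝ))) * ∏ i, (∫⁻ y, f i y) ^ (1 / 2 : ℝ) := by
        rw [Fin.prod_univ_three, ENNReal.ofReal_mul (abs_nonneg _),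
          ENNReal.ofReal_mul (by positivity), ENNReal.ofReal_mul (by positivity),
          ← ENNReal.ofReal_rpow_of_nonneg (abs_nonneg _) (by norm_num)]
        simp only [ENNReal.mul_rpow_of_nonneg _ _ (by norm_num : (0 : ℝ) ≤ 1 / 2)]
        ring
    _ ≤ ENNReal.ofReal (D ^ (-(1 / 2) : ℝ)) * ∏ i, (∫⁻ y, f i y) ^ (1 / 2 : ℝ) := by
        gcongr
        have e1 : |D0| * (|D0⁻¹| ^ (1 / 2 : ℝ) * |D0⁻¹| ^ (1 / 2 : ℝ) * |D0⁻¹| ^ (1 / 2 : ℝ)) =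
            |D0| ^ (-(1 / 2) : ℝ) := by
          rw [abs_inv, Real.inv_rpow (abs_nonneg _), ← Real.rpow_neg (abs_nonneg _),
            ← Real.rpow_add hD0pos, ← Real.rpow_add hD0pos]
          nth_rewrite 1 [← Real.rpow_one |D0|]
          rw [← Real.rpow_add hD0pos]
          norm_num
        rw [e1]
        exact Real.rpow_le_rpow_of_nonpos hD hdet (by norm_num)

end Pool.Agent.H67.LS
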