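import Pool.Agent.H67.LS.MK2

/-!
Multilinear Kakeya in `ℝ³` (Guth's argument).
-/

set_option autoImplicit false

namespace Pool.Agent.H67.LS

open MeasureTheory Set Pool.Agent.H83.LS
open scoped ENNReal NNReal

instance haar3 : (volume : Measure (ℝ × (ℝ × ℝ))).IsAddHaarMeasure := by
  rw [Measure.volume_eq_prod]; infer_instance

lemma conv_region (F : ℝ × (ℝ × ℝ) → ℝ≥0∞) (hF : Measurable F) (t₀ : ℝ) (x₀ : ℝ × ℝ) (R : ℝ) :
    ∫⁻ t in Icc (t₀ - R) (t₀ + R), ∫⁻ x in Metric.closedBall x₀ R, F (t, x) =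
      ∫⁻ z in Metric.closedBall (t₀, x₀) R, F z := by
  rw [← closedBall_prod_same (x := t₀) (y := x₀), Real.closedBall_eq_Icc,
    Measure.volume_eq_prod (α := ℝ) (β := ℝ × ℝ), ← Measure.prod_restrict,
    lintegral_prod _ hF.aemeasurable]

lemma vol_region (r : ℝ) (hr : 0 ≤ r) :
    volume (Metric.closedBall (0 : ℝ × (ℝ × ℝ)) r) = ENNReal.ofReal ((2 * r) ^ 3) := by
  have e : (0 : ℝ × (ℝ × ℝ)) = (0, (0, 0)) := rfl
  rw [e, ← closedBall_prod_same, ← closedBall_prod_same, Measure.volume_eq_prod, Measure.prod_prod,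
    Measure.volume_eq_prod, Measure.prod_prod, Real.volume_closedBall,
    ← ENNReal.ofReal_mul (by positivity), ← ENNReal.ofReal_mul (by positivity)]
  congr 1; ring

section
variable (I : Fin 3 → Finset (ℤ × ℤ)) (v : Fin 3 → ℤ × ℤ → ℝ × ℝ)
  (g : Fin 3 → ℤ × ℤ → ℝ × ℝ → ℝ≥0∞)

/-- the trilinear density at scale `ρ` -/
noncomputable def Ph (ρ : ℝ) (z : ℝ × (ℝ × ℝ)) : ℝ≥0∞ :=
  ∏ i, (tub ρ (I i) (v i) (g i) z.2 z.1) ^ (1 / 2 : ℝ)

lemma measurable_Ph (hg : ∀ i c, Measurable (g i c)) (ρ : ℝ) : Measurable (Ph I v g ρ) := by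
  unfold Ph
  apply Finset.measurable_fun_prod
  intro i _
  exact (measurable_tub ρ (I i) (v i) (g i) (hg i)).pow_const _

/-- normalized integral over a region -/
noncomputable def Jn (z₀ : ℝ × (ℝ × ℝ)) (ρ R : ℝ) : ℝ≥0∞ :=
  ENNReal.ofReal ((ρ ^ 3)⁻¹) * ∫⁻ z in Metric.closedBall z₀ R, Ph I v g ρ z

lemma Jn_mono (z₀ : ℝ × (ℝ × ℝ)) (ρ : ℝ) {R R' : ℝ} (h : R ≤ R') :
    Jn I v g z₀ ρ R ≤ Jn I v g z₀ ρ R' := by
  unfold Jn
  gcongr

lemma Jn_step (D : ℝ) (hD : 0 < D) (δ : ℝ) (v₀ : Fin 3 → ℝ × ℝ) (ρ L R' : ℝ)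
    (z₀ : ℝ × (ℝ × ℝ)) (hv0 : ∀ i, ‖v₀ i‖ ≤ 4) (hdet : D ≤ |det3 v₀|)
    (hv : ∀ i, ∀ c ∈ I i, ‖v i c - v₀ i‖ ≤ δ) (hg : ∀ i c, Measurable (g i c)) (hρ : 0 < ρ)
    (hL : 1 ≤ L) (hLδ : L * δ ≤ 1) :
    Jn I v g z₀ ρ R' ≤ ENNReal.ofReal (K1 D) * Jn I v g z₀ (L * ρ) (R' + L * ρ) := by
  have hLρ : 0 < L * ρ := by positivity
  have hK : 0 < K1 D := by unfold K1; positivity
  have h1 : ∀ w : ℝ × (ℝ × ℝ), ∫⁻ z in Metric.closedBall w (L * ρ), Ph I v g ρ z ≤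
      ENNReal.ofReal (K1 D * ρ ^ 3) * Ph I v g (L * ρ) w := by
    intro w
    have := mk_step D hD δ I v₀ v g ρ L w.2 w.1 hv0 hdet hv hg hρ hL hLδ
    have e := conv_region (Ph I v g ρ) (measurable_Ph I v g hg ρ) w.1 w.2 (L * ρ)
    have e2 : ((w.1, w.2) : ℝ × (ℝ × ℝ)) = w := rfl
    rw [e2] at e
    rw [← e]
    exact this
  have h2 := avg (volume : Measure (ℝ × (ℝ × ℝ))) (Ph I v g ρ) (measurable_Ph I v g hg ρ) z₀
    (L * ρ) R'
  rw [vol_region _ hLρ.le] at h2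
  have h3 : ∫⁻ w in Metric.closedBall z₀ (R' + L * ρ), ∫⁻ z in Metric.closedBall w (L * ρ),
      Ph I v g ρ z ≤ ENNReal.ofReal (K1 D * ρ ^ 3) *
        ∫⁻ w in Metric.closedBall z₀ (R' + L * ρ), Ph I v g (L * ρ) w := by
    rw [← lintegral_const_mul _ (measurable_Ph I v g hg (L * ρ))]
    exact lintegral_mono fun w => h1 w
  have h4 := h2.trans h3
  unfold Jn
  set X := ∫⁻ z in Metric.closedBall z₀ R', Ph I v g ρ z
  set Y := ∫⁻ w in Metric.closedBall z₀ (R' + L * ρ), Ph I v g (L * ρ) w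
  calc ENNReal.ofReal ((ρ ^ 3)⁻¹) * X
      = ENNReal.ofReal ((ρ ^ 3)⁻¹ * ((2 * (L * ρ)) ^ 3)⁻¹) * (ENNReal.ofReal ((2 * (L * ρ)) ^ 3) * X) := by
        rw [← mul_assoc, ← ENNReal.ofReal_mul (by positivity)]
        congr 2
        field_simp
    _ ≤ ENNReal.ofReal ((ρ ^ 3)⁻¹ * ((2 * (L * ρ)) ^ 3)⁻¹) * (ENNReal.ofReal (K1 D * ρ ^ 3) * Y) := by
        gcongr
    _ = ENNReal.ofReal (K1 D / 8 * ((L * ρ) ^ 3)⁻¹) * Y := by
        rw [← mul_assoc, ← ENNReal.ofReal_mul (by positivity)]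
        congr 2
        field_simp
        ring
    _ ≤ ENNReal.ofReal (K1 D) * (ENNReal.ofReal (((L * ρ) ^ 3)⁻¹) * Y) := by
        rw [← mul_assoc, ← ENNReal.ofReal_mul hK.le]
        gcongr
        linarith

lemma Jn_iter (D : ℝ) (hD : 0 < D) (δ : ℝ) (v₀ : Fin 3 → ℝ × ℝ) (R : ℝ) (hδ : 0 < δ)
    (hδ2 : δ ≤ 1 / 2)
    (z₀ : ℝ × (ℝ × ℝ)) (hv0 : ∀ i, ‖v₀ i‖ ≤ 4) (hdet : D ≤ |det3 v₀|)
    (hv : ∀ i, ∀ c ∈ I i, ‖v i c - v₀ i‖ ≤ δ) (hg : ∀ i c, Measurable (g i c)) (K : ℝ)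
    (hK1 : 1 ≤ K) (hK : K1 D ≤ K) (n : ℕ) :
    ∀ ρ R' : ℝ, 0 < ρ → ρ ≤ R → R * δ ^ n ≤ ρ →
      Jn I v g z₀ ρ R' ≤ ENNReal.ofReal (K ^ n) * Jn I v g z₀ R (R' + 3 * R - 2 * ρ) := by
  induction n with
  | zero =>
    intro ρ R' hρ hρR hR
    have : ρ = R := by rw [pow_zero, mul_one] at hR; exact le_antisymm hρR hR
    rw [this, pow_zero, ENNReal.ofReal_one, one_mul]
    apply Jn_mono
    rw [← this]; linarith
  | succ n ih =>
    intro ρ R' hρ hρR hR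
    have hKn : (1 : ℝ) ≤ K ^ n := one_le_pow₀ hK1
    rcases le_or_gt (δ⁻¹ * ρ) R with h | h
    · have hL : 1 ≤ δ⁻¹ := by rw [one_le_inv₀ hδ]; linarith
      have s1 := Jn_step I v g D hD δ v₀ ρ δ⁻¹ R' z₀ hv0 hdet hv hg hρ hL
        (inv_mul_cancel₀ hδ.ne').le
      have s2 := ih (δ⁻¹ * ρ) (R' + δ⁻¹ * ρ) (by positivity) h (by
        rw [inv_mul_eq_div, le_div_iff₀ hδ]
        rw [pow_succ] at hR
        linarith)
      have hrad : R' + δ⁻¹ * ρ + 3 * R - 2 * (δ⁻¹ * ρ) ≤ R' + 3 * R - 2 * ρ := by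
        have : 2 ≤ δ⁻¹ := by rw [le_inv_comm₀ (by norm_num) hδ]; linarith
        nlinarith
      calc Jn I v g z₀ ρ R' ≤ ENNReal.ofReal (K1 D) * Jn I v g z₀ (δ⁻¹ * ρ) (R' + δ⁻¹ * ρ) := s1
        _ ≤ ENNReal.ofReal K * (ENNReal.ofReal (K ^ n) *
            Jn I v g z₀ R (R' + δ⁻¹ * ρ + 3 * R - 2 * (δ⁻¹ * ρ))) := by gcongr
        _ ≤ ENNReal.ofReal K * (ENNReal.ofReal (K ^ n) * Jn I v g z₀ R (R' + 3 * R - 2 * ρ)) := by
            gcongr
            exact Jn_mono I v g z₀ R hrad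
        _ = _ := by
            rw [← mul_assoc, ← ENNReal.ofReal_mul (by linarith), pow_succ, mul_comm K]
    · have hL : 1 ≤ R / ρ := by rw [one_le_div hρ]; exact hρR
      have e : R / ρ * ρ = R := div_mul_cancel₀ R hρ.ne'
      have s1 := Jn_step I v g D hD δ v₀ ρ (R / ρ) R' z₀ hv0 hdet hv hg hρ hL (by
        rw [div_mul_eq_mul_div, div_le_one hρ]
        rw [inv_mul_eq_div, lt_div_iff₀ hδ] at h
        exact h.le)
      rw [e] at s1
      calc Jn I v g z₀ ρ R' ≤ ENNReal.ofReal (K1 D) * Jn I v g z₀ R (R' + R) := s1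
        _ ≤ ENNReal.ofReal (K ^ (n + 1)) * Jn I v g z₀ R (R' + 3 * R - 2 * ρ) := by
            have h5 : K1 D ≤ K ^ (n + 1) := by
              rw [pow_succ]; nlinarith
            gcongr
            exact Jn_mono I v g z₀ R (by linarith)

end

/-- multilinear Kakeya -/
theorem mk : T_MK := by
  intro D hD
  set K : ℝ := max 1 (K1 D) with hKdef
  have hK1 : 1 ≤ K := le_max_left _ _
  have hK : K1 D ≤ K := le_max_right _ _
  set C3 : ℝ := 8 ^ 3 * 25 ^ 24 with hC3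
  set C : ℝ := max K C3 with hC
  have hC1 : 1 ≤ C := hK1.trans (le_max_left _ _)
  refine ⟨C, hC1, ?_⟩
  intro δ I v₀ v g ρ R x₀ t₀ hδ hδ2 hv0 hdet hv hg hρ1 hρR
  have hρ : 0 < ρ := by linarith
  have hR : 0 < R := by linarith
  set z₀ : ℝ × (ℝ × ℝ) := (t₀, x₀) with hz₀
  -- number of steps
  set lam : ℝ := Real.log (R / ρ) / Real.log (1 / δ) with hlam
  have hlogδ : 0 < Real.log (1 / δ) := Real.log_pos (by rw [lt_div_iff₀ hδ]; linarith)
  have hlogR : 0 ≤ Real.log (R / ρ) := Real.log_nonneg (by rw [one_le_div hρ]; exact hρR)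
  have hlam0 : 0 ≤ lam := div_nonneg hlogR hlogδ.le
  set n : ℕ := ⌈lam⌉₊ with hn
  have hn1 : lam ≤ n := Nat.le_ceil _
  have hn2 : (n : ℝ) ≤ lam + 1 := (Nat.ceil_lt_add_one hlam0).le
  have hRn : R * δ ^ n ≤ ρ := by
    have h1 : R / ρ ≤ (1 / δ) ^ n := by
      rw [← Real.log_le_log_iff (by positivity) (by positivity), Real.log_pow]
      rwa [hlam, div_le_iff₀ hlogδ] at hn1
    rw [one_div, inv_pow, div_le_iff₀ hρ, inv_mul_eq_div, le_div_iff₀ (by positivity)] at h1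
    exact h1
  have hit := Jn_iter I v g D hD δ v₀ R hδ hδ2 z₀ hv0 hdet hv hg K hK1 hK n ρ R hρ hρR hRn
  -- final slow variation
  have hv5 : ∀ i, ∀ c ∈ I i, ‖v i c‖ ≤ 5 := by
    intro i c hc
    have h1 := hv i c hc
    have h2 := hv0 i
    have h3 : ‖v i c‖ ≤ ‖v i c - v₀ i‖ + ‖v₀ i‖ := by
      have := norm_add_le (v i c - v₀ i) (v₀ i)
      rwa [sub_add_cancel] at this
    linarith
  have hfin : Jn I v g z₀ R (4 * R) ≤ ENNReal.ofReal C3 * Ph I v g R z₀ := by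
    have h1 : ∀ z ∈ Metric.closedBall z₀ (4 * R), Ph I v g R z ≤
        ENNReal.ofReal (25 ^ 24) * Ph I v g R z₀ := by
      intro z hz
      rw [Metric.mem_closedBall, dist_eq_norm] at hz
      have hz1 : |z.1 - t₀| ≤ 4 * R := (norm_fst_le (z - z₀)).trans hz
      have hz2 : ‖z.2 - x₀‖ ≤ 4 * R := (norm_snd_le (z - z₀)).trans hz
      unfold Ph
      calc ∏ i, (tub R (I i) (v i) (g i) z.2 z.1) ^ (1 / 2 : ℝ)
          ≤ ∏ i, (ENNReal.ofReal (25 ^ 16) * tub R (I i) (v i) (g i) x₀ t₀) ^ (1 / 2 : ℝ) := by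
            apply Finset.prod_le_prod'
            intro i _
            exact ENNReal.rpow_le_rpow (tub_slow R (I i) (v i) (g i) (hg i) z.2 x₀ z.1 t₀ hR
              (hv5 i) hz2 hz1) (by norm_num)
        _ = _ := by
            simp only [ENNReal.mul_rpow_of_nonneg _ _ (by norm_num : (0 : ℝ) ≤ 1 / 2)]
            rw [Finset.prod_mul_distrib]
            congr 1
            rw [Finset.prod_const, ENNReal.ofReal_rpow_of_nonneg (by positivity) (by norm_num),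
              ← ENNReal.ofReal_pow (by positivity)]
            congr 1
            rw [← Real.rpow_natCast, ← Real.rpow_mul (by positivity)]
            simp only [Finset.card_univ, Fintype.card_fin]
            rw [← Real.rpow_natCast 25 16, ← Real.rpow_mul (by norm_num)]
            norm_num
    have hvol : volume (Metric.closedBall z₀ (4 * R)) = ENNReal.ofReal ((2 * (4 * R)) ^ 3) := by
      rw [← vol_region (4 * R) (by positivity)]
      rw [← measure_preimage_add volume z₀ (Metric.closedBall z₀ (4 * R))]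
      congr 1
      ext x
      simp [Metric.mem_closedBall, dist_eq_norm]
    unfold Jn
    calc ENNReal.ofReal ((R ^ 3)⁻¹) * ∫⁻ z in Metric.closedBall z₀ (4 * R), Ph I v g R z
        ≤ ENNReal.ofReal ((R ^ 3)⁻¹) * ∫⁻ z in Metric.closedBall z₀ (4 * R),
            ENNReal.ofReal (25 ^ 24) * Ph I v g R z₀ := by
          exact mul_le_mul' le_rfl
            (setLIntegral_mono' Metric.isClosed_closedBall.measurableSet h1)
      _ = ENNReal.ofReal ((R ^ 3)⁻¹) * (ENNReal.ofReal (25 ^ 24) * Ph I v g R z₀ *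
            ENNReal.ofReal ((2 * (4 * R)) ^ 3)) := by
          rw [setLIntegral_const, hvol]
      _ = ENNReal.ofReal ((R ^ 3)⁻¹ * 25 ^ 24 * (2 * (4 * R)) ^ 3) * Ph I v g R z₀ := by
          rw [ENNReal.ofReal_mul (by positivity), ENNReal.ofReal_mul (by positivity)]
          ring
      _ = ENNReal.ofReal C3 * Ph I v g R z₀ := by
          congr 2
          rw [hC3]
          field_simp
          norm_num
  -- assemble
  have hconv := conv_region (Ph I v g ρ) (measurable_Ph I v g hg ρ) t₀ x₀ R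
  have hL : ∫⁻ t in Icc (t₀ - R) (t₀ + R), ∫⁻ x in Metric.closedBall x₀ R,
      ∏ i, (tub ρ (I i) (v i) (g i) x t) ^ (1 / 2 : ℝ) =
      ENNReal.ofReal (ρ ^ 3) * Jn I v g z₀ ρ R := by
    unfold Jn
    rw [← mul_assoc, ← ENNReal.ofReal_mul (by positivity), mul_inv_cancel₀ (by positivity),
      ENNReal.ofReal_one, one_mul]
    exact hconv
  rw [hL]
  calc ENNReal.ofReal (ρ ^ 3) * Jn I v g z₀ ρ R
      ≤ ENNReal.ofReal (ρ ^ 3) * (ENNReal.ofReal (K ^ n) * Jn I v g z₀ R (4 * R)) := by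
        gcongr
        refine hit.trans ?_
        gcongr
        exact Jn_mono I v g z₀ R (by linarith)
    _ ≤ ENNReal.ofReal (ρ ^ 3) * (ENNReal.ofReal (K ^ n) * (ENNReal.ofReal C3 *
          Ph I v g R z₀)) := by gcongr
    _ = ENNReal.ofReal (K ^ n * C3 * ρ ^ 3) * Ph I v g R z₀ := by
        rw [← mul_assoc, ← mul_assoc, ← ENNReal.ofReal_mul (by positivity),
          ← ENNReal.ofReal_mul (by positivity)]
        congr 2
        ring
    _ ≤ ENNReal.ofReal (C ^ (2 + lam) * ρ ^ 3) * Ph I v g R z₀ := by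
        gcongr
        have h1 : K ^ n ≤ C ^ (1 + lam) := by
          calc K ^ n ≤ C ^ n := pow_le_pow_left₀ (by linarith) (le_max_left _ _) n
            _ = C ^ (n : ℝ) := (Real.rpow_natCast C n).symm
            _ ≤ C ^ (1 + lam) := Real.rpow_le_rpow_of_exponent_le hC1 (by linarith)
        have h2 : C3 ≤ C := le_max_right _ _
        have h3 : C ^ (2 + lam) = C ^ (1 + lam) * C := by
          have : (2 : ℝ) + lam = (1 + lam) + 1 := by ring
          rw [this, Real.rpow_add (by linarith), Real.rpow_one]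
        rw [h3]
        gcongr

end Pool.Agent.H67.LS
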