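import Pool.Agent.H83.LS.Targets1
import Pool.Agent.H83.LS.Basic

/-!
Multilinear Kakeya, part 1: kernel estimates and averaging.
-/

set_option autoImplicit false

namespace Pool.Agent.H67.LS

open MeasureTheory Set Pool.Agent.H83.LS
open scoped ENNReal NNReal

/-- total mass of the one dimensional weight -/
lemma mass1 (ρ y : ℝ) (hρ : 0 < ρ) :
    ∫⁻ z : ℝ, ENNReal.ofReal (((1 + |z - y| / ρ) ^ 8)⁻¹) ≤ ENNReal.ofReal (4 * ρ) := by
  have h1 : ∀ z : ℝ, ((1 + |z - y| / ρ) ^ 8)⁻¹ ≤ (1 + ((z - y) / ρ) ^ 2)⁻¹ := by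
    intro z
    apply inv_anti₀ (by positivity)
    have e : ((z - y) / ρ) ^ 2 = (|z - y| / ρ) ^ 2 := by
      rw [div_pow, div_pow, sq_abs]
    rw [e]
    set u := |z - y| / ρ
    have hu : 0 ≤ u := by positivity
    calc 1 + u ^ 2 ≤ (1 + u) ^ 2 := by nlinarith
      _ ≤ (1 + u) ^ 8 := pow_le_pow_right₀ (by linarith) (by norm_num)
  have hint : Integrable (fun z : ℝ => (1 + ((z - y) / ρ) ^ 2)⁻¹) := by
    have a := integrable_inv_one_add_sq.comp_div hρ.ne'
    exact a.comp_sub_right y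
  have hval : ∫ z : ℝ, (1 + ((z - y) / ρ) ^ 2)⁻¹ = ρ * Real.pi := by
    rw [integral_sub_right_eq_self (fun z : ℝ => (1 + (z / ρ) ^ 2)⁻¹) y,
      Measure.integral_comp_div (fun z : ℝ => (1 + z ^ 2)⁻¹) ρ, integral_univ_inv_one_add_sq,
      abs_of_pos hρ, smul_eq_mul]
  calc ∫⁻ z : ℝ, ENNReal.ofReal (((1 + |z - y| / ρ) ^ 8)⁻¹)
      ≤ ∫⁻ z : ℝ, ENNReal.ofReal ((1 + ((z - y) / ρ) ^ 2)⁻¹) :=
        lintegral_mono fun z => ENNReal.ofReal_le_ofReal (h1 z)
    _ = ENNReal.ofReal (∫ z : ℝ, (1 + ((z - y) / ρ) ^ 2)⁻¹) := by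
        rw [ofReal_integral_eq_lintegral_ofReal hint]
        exact Filter.Eventually.of_forall fun z => by positivity
    _ ≤ ENNReal.ofReal (4 * ρ) := by
        rw [hval]
        apply ENNReal.ofReal_le_ofReal
        nlinarith [Real.pi_le_four]

/-- the one dimensional estimate -/
lemma k1 (ρ L a y : ℝ) (hρ : 0 < ρ) (hL : 1 ≤ L) :
    ∫⁻ z in Icc (a - 5 * (L * ρ)) (a + 5 * (L * ρ)), ENNReal.ofReal (((1 + |z - y| / ρ) ^ 8)⁻¹) ≤
      ENNReal.ofReal (4 * 11 ^ 8 * ρ * ((1 + |a - y| / (L * ρ)) ^ 8)⁻¹) := by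
  have hL0 : 0 < L := by linarith
  have hLρ : 0 < L * ρ := by positivity
  rcases le_or_gt |a - y| (10 * (L * ρ)) with h | h
  · refine (setLIntegral_le_lintegral _ _).trans ((mass1 ρ y hρ).trans ?_)
    apply ENNReal.ofReal_le_ofReal
    have h1 : 1 + |a - y| / (L * ρ) ≤ 11 := by
      have : |a - y| / (L * ρ) ≤ 10 := by rw [div_le_iff₀ hLρ]; exact h
      linarith
    have h2 : (1 + |a - y| / (L * ρ)) ^ 8 ≤ 11 ^ 8 := pow_le_pow_left₀ (by positivity) h1 8
    have h3 : 1 ≤ 11 ^ 8 * ((1 + |a - y| / (L * ρ)) ^ 8)⁻¹ := by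
      rw [← div_eq_mul_inv, one_le_div (by positivity)]
      exact h2
    calc 4 * ρ = 4 * ρ * 1 := by ring
      _ ≤ 4 * ρ * (11 ^ 8 * ((1 + |a - y| / (L * ρ)) ^ 8)⁻¹) := by gcongr
      _ = _ := by ring
  · have hs : 0 < |a - y| := by linarith [mul_pos (by norm_num : (0 : ℝ) < 10) hLρ]
    set s := |a - y| with hsdef
    have hb : ∀ z ∈ Icc (a - 5 * (L * ρ)) (a + 5 * (L * ρ)),
        ENNReal.ofReal (((1 + |z - y| / ρ) ^ 8)⁻¹) ≤
        ENNReal.ofReal (4 ^ 8 * (L ^ 8)⁻¹ * ((1 + s / (L * ρ)) ^ 8)⁻¹) := by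
      intro z hz
      apply ENNReal.ofReal_le_ofReal
      rw [mul_assoc, ← mul_inv, ← div_eq_mul_inv, inv_eq_one_div, div_le_div_iff₀ (by positivity) (by positivity),
        one_mul, ← mul_pow, ← mul_pow]
      apply pow_le_pow_left₀ (by positivity)
      have h1 : s ≤ |z - y| + 5 * (L * ρ) := by
        have e1 : a - y = (z - y) - (z - a) := by ring
        have e2 : |z - a| ≤ 5 * (L * ρ) := by
          rw [abs_le]; exact ⟨by linarith [hz.1], by linarith [hz.2]⟩
        rw [hsdef, e1]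
        exact (abs_sub _ _).trans (by linarith)
      have h2 : s / 2 ≤ |z - y| := by linarith
      have h3 : L * (1 + s / (L * ρ)) = L + s / ρ := by
        field_simp
      rw [h3]
      have h4 : s / (2 * ρ) ≤ |z - y| / ρ := by
        rw [div_le_div_iff₀ (by positivity) hρ]
        nlinarith
      have h5 : L ≤ s / ρ / 10 := by
        rw [le_div_iff₀ (by norm_num), le_div_iff₀ hρ]
        linarith
      have h6 : s / (2 * ρ) = s / ρ / 2 := by
        field_simp
      rw [h6] at h4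
      have h7 : 0 < s / ρ := by positivity
      linarith
    calc ∫⁻ z in Icc (a - 5 * (L * ρ)) (a + 5 * (L * ρ)), ENNReal.ofReal (((1 + |z - y| / ρ) ^ 8)⁻¹)
        ≤ ∫⁻ z in Icc (a - 5 * (L * ρ)) (a + 5 * (L * ρ)),
          ENNReal.ofReal (4 ^ 8 * (L ^ 8)⁻¹ * ((1 + s / (L * ρ)) ^ 8)⁻¹) :=
          setLIntegral_mono' measurableSet_Icc hb
      _ = ENNReal.ofReal (4 ^ 8 * (L ^ 8)⁻¹ * ((1 + s / (L * ρ)) ^ 8)⁻¹) *
          ENNReal.ofReal (10 * (L * ρ)) := by
          rw [setLIntegral_const, Real.volume_Icc]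
          congr 2; ring
      _ ≤ _ := by
          rw [← ENNReal.ofReal_mul (by positivity)]
          apply ENNReal.ofReal_le_ofReal
          have h8 : (L ^ 8)⁻¹ * L ≤ 1 := by
            rw [inv_mul_le_iff₀ (by positivity), mul_one]
            calc L = L ^ 1 := (pow_one L).symm
              _ ≤ L ^ 8 := pow_le_pow_right₀ hL (by norm_num)
          calc 4 ^ 8 * (L ^ 8)⁻¹ * ((1 + s / (L * ρ)) ^ 8)⁻¹ * (10 * (L * ρ))
              = (10 * 4 ^ 8 * ρ * ((1 + s / (L * ρ)) ^ 8)⁻¹) * ((L ^ 8)⁻¹ * L) := by ring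
            _ ≤ (10 * 4 ^ 8 * ρ * ((1 + s / (L * ρ)) ^ 8)⁻¹) * 1 := by gcongr
            _ = (10 * 4 ^ 8) * (ρ * ((1 + s / (L * ρ)) ^ 8)⁻¹) := by ring
            _ ≤ (4 * 11 ^ 8) * (ρ * ((1 + s / (L * ρ)) ^ 8)⁻¹) :=
                mul_le_mul_of_nonneg_right (by norm_num) (by positivity)
            _ = _ := by ring

lemma closedBall_eq (q : ℝ × ℝ) (r : ℝ) :
    Metric.closedBall q r = Icc (q.1 - r) (q.1 + r) ×ˢ Icc (q.2 - r) (q.2 + r) := by
  rw [← Real.closedBall_eq_Icc, ← Real.closedBall_eq_Icc, closedBall_prod_same]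

/-- the two dimensional estimate -/
lemma k2 (ρ L : ℝ) (q w : ℝ × ℝ) (hρ : 0 < ρ) (hL : 1 ≤ L) :
    ∫⁻ z in Metric.closedBall q (5 * (L * ρ)), ENNReal.ofReal (om ρ (z - w)) ≤
      ENNReal.ofReal (4 ^ 2 * 11 ^ 16 * ρ ^ 2) * ENNReal.ofReal (om (L * ρ) (q - w)) := by
  have hL0 : 0 < L := by linarith
  have e1 : ∀ z : ℝ × ℝ, ENNReal.ofReal (om ρ (z - w)) =
      ENNReal.ofReal (((1 + |z.1 - w.1| / ρ) ^ 8)⁻¹) *
        ENNReal.ofReal (((1 + |z.2 - w.2| / ρ) ^ 8)⁻¹) := by
    intro z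
    rw [← ENNReal.ofReal_mul (by positivity), ← mul_inv, ← mul_pow]
    rfl
  simp only [e1]
  rw [closedBall_eq, Measure.volume_eq_prod, ← Measure.prod_restrict,
    lintegral_prod_mul (f := fun z => ENNReal.ofReal (((1 + |z - w.1| / ρ) ^ 8)⁻¹))
      (g := fun z => ENNReal.ofReal (((1 + |z - w.2| / ρ) ^ 8)⁻¹))
      (by fun_prop) (by fun_prop)]
  refine (mul_le_mul' (k1 ρ L q.1 w.1 hρ hL) (k1 ρ L q.2 w.2 hρ hL)).trans (le_of_eq ?_)
  rw [← ENNReal.ofReal_mul (by positivity), ← ENNReal.ofReal_mul (by positivity)]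
  congr 1
  unfold om
  simp only [Prod.fst_sub, Prod.snd_sub]
  rw [mul_pow, mul_inv]
  ring

/-- averaging over translates of a ball -/
lemma avg {E : Type*} [NormedAddCommGroup E] [MeasurableSpace E] [BorelSpace E]
    [SecondCountableTopology E] (μ : Measure E) [SFinite μ] [μ.IsAddLeftInvariant]
    (Φ : E → ℝ≥0∞) (hΦ : Measurable Φ) (z₀ : E) (r R : ℝ) :
    μ (Metric.closedBall 0 r) * ∫⁻ z in Metric.closedBall z₀ R, Φ z ∂μ ≤
      ∫⁻ w in Metric.closedBall z₀ (R + r), ∫⁻ z in Metric.closedBall w r, Φ z ∂μ ∂μ := by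
  have hvol : ∀ z : E, μ (Metric.closedBall z r) = μ (Metric.closedBall 0 r) := by
    intro z
    rw [← measure_preimage_add μ z (Metric.closedBall z r)]
    congr 1
    ext x
    simp [Metric.mem_closedBall, dist_eq_norm]
  have e1 : ∀ w : E, ∫⁻ z in Metric.closedBall w r, Φ z ∂μ =
      ∫⁻ z, (Metric.closedBall w r).indicator Φ z ∂μ := fun w =>
    (lintegral_indicator Metric.isClosed_closedBall.measurableSet Φ).symm
  have hmeas : Measurable (fun p : E × E => (Metric.closedBall p.1 r).indicator Φ p.2) := by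
    have e : (fun p : E × E => (Metric.closedBall p.1 r).indicator Φ p.2) =
        {p : E × E | dist p.2 p.1 ≤ r}.indicator (fun p => Φ p.2) := by
      funext p
      by_cases h : dist p.2 p.1 ≤ r
      · rw [indicator_of_mem (show p.2 ∈ Metric.closedBall p.1 r from h),
          indicator_of_mem (show p ∈ {p : E × E | dist p.2 p.1 ≤ r} from h)]
      · rw [indicator_of_notMem (show p.2 ∉ Metric.closedBall p.1 r from h),
          indicator_of_notMem (show p ∉ {p : E × E | dist p.2 p.1 ≤ r} from h)]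
    rw [e]
    apply Measurable.indicator (hΦ.comp measurable_snd)
    exact (isClosed_le (by fun_prop) continuous_const).measurableSet
  calc μ (Metric.closedBall 0 r) * ∫⁻ z in Metric.closedBall z₀ R, Φ z ∂μ
      = ∫⁻ z in Metric.closedBall z₀ R, μ (Metric.closedBall 0 r) * Φ z ∂μ := by
        rw [lintegral_const_mul _ hΦ]
    _ ≤ ∫⁻ z in Metric.closedBall z₀ R, ∫⁻ w in Metric.closedBall z₀ (R + r),
          (Metric.closedBall w r).indicator Φ z ∂μ ∂μ := by
        apply setLIntegral_mono' Metric.isClosed_closedBall.measurableSet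
        intro z hz
        have e2 : ∀ w, (Metric.closedBall w r).indicator Φ z =
            (Metric.closedBall z r).indicator (fun _ => Φ z) w := by
          intro w
          by_cases h : dist z w ≤ r
          · rw [indicator_of_mem (show z ∈ Metric.closedBall w r from h),
              indicator_of_mem (show w ∈ Metric.closedBall z r by
                rw [Metric.mem_closedBall, dist_comm]; exact h)]
          · rw [indicator_of_notMem (show z ∉ Metric.closedBall w r from h),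
              indicator_of_notMem (show w ∉ Metric.closedBall z r by
                rw [Metric.mem_closedBall, dist_comm]; exact h)]
        simp only [e2]
        rw [lintegral_indicator Metric.isClosed_closedBall.measurableSet, setLIntegral_const,
          Measure.restrict_apply Metric.isClosed_closedBall.measurableSet]
        have e3 : Metric.closedBall z r ∩ Metric.closedBall z₀ (R + r) = Metric.closedBall z r := by
          apply inter_eq_left.mpr
          apply Metric.closedBall_subset_closedBall'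
          have := Metric.mem_closedBall.mp hz
          linarith
        rw [e3, hvol z, mul_comm]
    _ ≤ ∫⁻ z, ∫⁻ w in Metric.closedBall z₀ (R + r),
          (Metric.closedBall w r).indicator Φ z ∂μ ∂μ := setLIntegral_le_lintegral _ _
    _ = ∫⁻ w in Metric.closedBall z₀ (R + r), ∫⁻ z, 
          (Metric.closedBall w r).indicator Φ z ∂μ ∂μ := by
        apply lintegral_lintegral_swap
        exact (hmeas.comp measurable_swap).aemeasurable
    _ = _ := by simp only [e1]

end Pool.Agent.H67.LS
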