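import Pool.Agent.H67.LS.MK1
import Pool.Agent.H67.LS.LW

/-!
Multilinear Kakeya, part 2: one step.
-/

set_option autoImplicit false

namespace Pool.Agent.H67.LS

open MeasureTheory Set Pool.Agent.H83.LS
open scoped ENNReal NNReal

/-- joint measurability of tube sums -/
lemma measurable_tub (ρ : ℝ) (I : Finset (ℤ × ℤ)) (v : ℤ × ℤ → ℝ × ℝ)
    (g : ℤ × ℤ → ℝ × ℝ → ℝ≥0∞) (hg : ∀ c, Measurable (g c)) :
    Measurable (fun p : ℝ × (ℝ × ℝ) => tub ρ I v g p.2 p.1) := by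
  unfold tub
  apply Finset.measurable_fun_sum
  intro c _
  have h : Measurable (fun q : (ℝ × (ℝ × ℝ)) × (ℝ × ℝ) =>
    ENNReal.ofReal (om ρ (q.1.2 - q.2 - q.1.1 • v c)) * g c q.2) :=
    (((measurable_om ρ).comp (f := fun q : (ℝ × (ℝ × ℝ)) × (ℝ × ℝ) => q.1.2 - q.2 - q.1.1 • v c)
      (by fun_prop)).ennreal_ofReal).mul ((hg c).comp measurable_snd)
  exact Measurable.lintegral_prod_right' h

lemma measurable_tub_t (ρ : ℝ) (I : Finset (ℤ × ℤ)) (v : ℤ × ℤ → ℝ × ℝ)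
    (g : ℤ × ℤ → ℝ × ℝ → ℝ≥0∞) (hg : ∀ c, Measurable (g c)) (t : ℝ) :
    Measurable (fun x : ℝ × ℝ => tub ρ I v g x t) :=
  (measurable_tub ρ I v g hg).comp (f := fun x : ℝ × ℝ => (t, x)) (by fun_prop)

/-- comparison of tube sums from a comparison of the weights -/
lemma tub_le (ρ ρ' : ℝ) (I : Finset (ℤ × ℤ)) (v : ℤ × ℤ → ℝ × ℝ)
    (g : ℤ × ℤ → ℝ × ℝ → ℝ≥0∞) (hg : ∀ c, Measurable (g c)) (x x' : ℝ × ℝ) (t t' K : ℝ) (hK : 0 ≤ K)
    (h : ∀ c ∈ I, ∀ y, om ρ (x - y - t • v c) ≤ K * om ρ' (x' - y - t' • v c)) :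
    tub ρ I v g x t ≤ ENNReal.ofReal K * tub ρ' I v g x' t' := by
  unfold tub
  rw [Finset.mul_sum]
  apply Finset.sum_le_sum
  intro c hc
  rw [← lintegral_const_mul]
  · apply lintegral_mono
    intro y
    simp only
    rw [← mul_assoc, ← ENNReal.ofReal_mul hK]
    gcongr
    exact h c hc y
  · exact (((measurable_om ρ').comp (by fun_prop)).ennreal_ofReal).mul (hg c)

lemma norm_bounds (h : ℝ × ℝ) {M r : ℝ} (hr : 0 < r) (hM : 0 ≤ M) (hh : ‖h‖ ≤ M * r) :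
    ((1 + |h.1| / r) * (1 + |h.2| / r)) ^ 8 ≤ (1 + M) ^ 16 := by
  have h1 : |h.1| ≤ M * r := (norm_fst_le h).trans hh
  have h2 : |h.2| ≤ M * r := (norm_snd_le h).trans hh
  have e1 : |h.1| / r ≤ M := by rw [div_le_iff₀ hr]; exact h1
  have e2 : |h.2| / r ≤ M := by rw [div_le_iff₀ hr]; exact h2
  calc ((1 + |h.1| / r) * (1 + |h.2| / r)) ^ 8 ≤ ((1 + M) * (1 + M)) ^ 8 := by gcongr
    _ = (1 + M) ^ 16 := by ring

lemma om_shift' {r M : ℝ} (hr : 0 < r) (hM : 0 ≤ M) (x h : ℝ × ℝ) (hh : ‖h‖ ≤ M * r) :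
    om r (x + h) ≤ (1 + M) ^ 16 * om r x :=
  (om_shift r hr x h).trans (mul_le_mul_of_nonneg_right (norm_bounds h hr hM hh)
    (om_pos r hr x).le)

/-- slow variation of tube sums -/
lemma tub_slow (ρ : ℝ) (I : Finset (ℤ × ℤ)) (v : ℤ × ℤ → ℝ × ℝ)
    (g : ℤ × ℤ → ℝ × ℝ → ℝ≥0∞) (hg : ∀ c, Measurable (g c)) (x x' : ℝ × ℝ) (t t' : ℝ)
    (hρ : 0 < ρ) (hv : ∀ c ∈ I, ‖v c‖ ≤ 5) (hx : ‖x - x'‖ ≤ 4 * ρ) (ht : |t - t'| ≤ 4 * ρ) :
    tub ρ I v g x t ≤ ENNReal.ofReal (25 ^ 16) * tub ρ I v g x' t' := by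
  apply tub_le ρ ρ I v g hg x x' t t' _ (by positivity)
  intro c hc y
  have e : x - y - t • v c = (x' - y - t' • v c) + ((x - x') - (t - t') • v c) := by
    rw [sub_smul]; abel
  rw [e]
  have hn : ‖(x - x') - (t - t') • v c‖ ≤ 24 * ρ := by
    calc ‖(x - x') - (t - t') • v c‖ ≤ ‖x - x'‖ + ‖(t - t') • v c‖ := norm_sub_le _ _
      _ = ‖x - x'‖ + |t - t'| * ‖v c‖ := by rw [norm_smul, Real.norm_eq_abs]
      _ ≤ 4 * ρ + 4 * ρ * 5 := by
          gcongr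
          exact hv c hc
      _ = 24 * ρ := by ring
  have := om_shift' hρ (by norm_num : (0 : ℝ) ≤ 24) (x' - y - t' • v c) _ hn
  calc _ ≤ _ := this
    _ = _ := by norm_num

/-- integral of a tube sum over a ball at fixed time -/
lemma int_tub (ρ L : ℝ) (I : Finset (ℤ × ℤ)) (v : ℤ × ℤ → ℝ × ℝ)
    (g : ℤ × ℤ → ℝ × ℝ → ℝ≥0∞) (hg : ∀ c, Measurable (g c)) (q : ℝ × ℝ) (t : ℝ)
    (hρ : 0 < ρ) (hL : 1 ≤ L) :
    ∫⁻ z in Metric.closedBall q (5 * (L * ρ)), tub ρ I v g z t ≤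
      ENNReal.ofReal (4 ^ 2 * 11 ^ 16 * ρ ^ 2) * tub (L * ρ) I v g q t := by
  unfold tub
  have m1 : ∀ c, Measurable (fun p : (ℝ × ℝ) × (ℝ × ℝ) =>
      ENNReal.ofReal (om ρ (p.1 - p.2 - t • v c)) * g c p.2) := by
    intro c
    exact (((measurable_om ρ).comp (by fun_prop)).ennreal_ofReal).mul ((hg c).comp measurable_snd)
  rw [lintegral_finsetSum, Finset.mul_sum]
  · apply Finset.sum_le_sum
    intro c _
    rw [lintegral_lintegral_swap (m1 c).aemeasurable, ← lintegral_const_mul]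
    · apply lintegral_mono
      intro y
      simp only
      have e1 : ∀ z : ℝ × ℝ, ENNReal.ofReal (om ρ (z - y - t • v c)) * g c y =
          g c y * ENNReal.ofReal (om ρ (z - (y + t • v c))) := by
        intro z; rw [sub_sub, mul_comm]
      simp only [e1]
      have m2 : Measurable (fun z : ℝ × ℝ => ENNReal.ofReal (om ρ (z - (y + t • v c)))) :=
        ((measurable_om ρ).comp (f := fun z : ℝ × ℝ => z - (y + t • v c))
          (by fun_prop)).ennreal_ofReal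
      rw [lintegral_const_mul _ m2]
      have := k2 ρ L q (y + t • v c) hρ hL
      calc g c y * ∫⁻ z in Metric.closedBall q (5 * (L * ρ)), ENNReal.ofReal (om ρ (z - (y + t • v c)))
          ≤ g c y * (ENNReal.ofReal (4 ^ 2 * 11 ^ 16 * ρ ^ 2) *
            ENNReal.ofReal (om (L * ρ) (q - (y + t • v c)))) := by gcongr
        _ = _ := by rw [sub_sub]; ring
    · exact (((measurable_om (L * ρ)).comp (by fun_prop)).ennreal_ofReal).mul (hg c)
  · intro c _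
    exact Measurable.lintegral_prod_right' (m1 c)

/-- the constant of one step -/
noncomputable def K1 (D : ℝ) : ℝ := 2 ^ 24 * D ^ (-(1 / 2) : ℝ) * (4 * 11 ^ 16) ^ 3

/-- one step -/
lemma mk_step (D : ℝ) (hD : 0 < D) (δ : ℝ) (I : Fin 3 → Finset (ℤ × ℤ))
    (v₀ : Fin 3 → ℝ × ℝ) (v : Fin 3 → ℤ × ℤ → ℝ × ℝ) (g : Fin 3 → ℤ × ℤ → ℝ × ℝ → ℝ≥0∞)
    (ρ L : ℝ) (xQ : ℝ × ℝ) (tQ : ℝ) (hv0 : ∀ i, ‖v₀ i‖ ≤ 4) (hdet : D ≤ |det3 v₀|)
    (hv : ∀ i, ∀ c ∈ I i, ‖v i c - v₀ i‖ ≤ δ) (hg : ∀ i c, Measurable (g i c)) (hρ : 0 < ρ)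
    (hL : 1 ≤ L) (hLδ : L * δ ≤ 1) :
    ∫⁻ t in Icc (tQ - L * ρ) (tQ + L * ρ), ∫⁻ x in Metric.closedBall xQ (L * ρ),
      ∏ i, (tub ρ (I i) (v i) (g i) x t) ^ (1 / 2 : ℝ) ≤
    ENNReal.ofReal (K1 D * ρ ^ 3) *
      ∏ i, (tub (L * ρ) (I i) (v i) (g i) xQ tQ) ^ (1 / 2 : ℝ) := by
  have hLρ : 0 < L * ρ := by positivity
  set f : Fin 3 → ℝ × ℝ → ℝ≥0∞ := fun i => (Metric.closedBall xQ (5 * (L * ρ))).indicator
    (fun z => tub ρ (I i) (v i) (g i) z tQ) with hf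
  have mf : ∀ i, Measurable (f i) := fun i =>
    (measurable_tub_t ρ (I i) (v i) (g i) (hg i) tQ).indicator
      Metric.isClosed_closedBall.measurableSet
  have key : ∀ t ∈ Icc (tQ - L * ρ) (tQ + L * ρ), ∀ x ∈ Metric.closedBall xQ (L * ρ), ∀ i,
      tub ρ (I i) (v i) (g i) x t ≤ ENNReal.ofReal (2 ^ 16) * f i (x - (t - tQ) • v₀ i) := by
    intro t ht x hx i
    have ht' : |t - tQ| ≤ L * ρ := by
      rw [abs_le]; exact ⟨by linarith [ht.1], by linarith [ht.2]⟩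
    have hmem : x - (t - tQ) • v₀ i ∈ Metric.closedBall xQ (5 * (L * ρ)) := by
      rw [Metric.mem_closedBall, dist_eq_norm]
      have e : x - (t - tQ) • v₀ i - xQ = (x - xQ) - (t - tQ) • v₀ i := by abel
      rw [e]
      calc ‖(x - xQ) - (t - tQ) • v₀ i‖ ≤ ‖x - xQ‖ + ‖(t - tQ) • v₀ i‖ := norm_sub_le _ _
        _ = ‖x - xQ‖ + |t - tQ| * ‖v₀ i‖ := by rw [norm_smul, Real.norm_eq_abs]
        _ ≤ L * ρ + L * ρ * 4 := by
            gcongr
            · rw [← dist_eq_norm]; exact Metric.mem_closedBall.mp hx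
            · exact hv0 i
        _ = 5 * (L * ρ) := by ring
    rw [hf]
    simp only
    rw [indicator_of_mem hmem]
    apply tub_le ρ ρ (I i) (v i) (g i) (hg i) _ _ _ _ _ (by positivity)
    intro c hc y
    have e : x - y - t • v i c = (x - (t - tQ) • v₀ i - y - tQ • v i c) +
        (-((t - tQ) • (v i c - v₀ i))) := by
      rw [smul_sub, sub_smul, sub_smul]; abel
    rw [e]
    have hn : ‖-((t - tQ) • (v i c - v₀ i))‖ ≤ 1 * ρ := by
      rw [norm_neg, norm_smul, Real.norm_eq_abs]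
      calc |t - tQ| * ‖v i c - v₀ i‖ ≤ L * ρ * δ := by
            gcongr
            exact hv i c hc
        _ = (L * δ) * ρ := by ring
        _ ≤ 1 * ρ := by gcongr
    have := om_shift' hρ (by norm_num : (0 : ℝ) ≤ 1) (x - (t - tQ) • v₀ i - y - tQ • v i c) _ hn
    calc _ ≤ _ := this
      _ = _ := by norm_num
  have hlw := lw v₀ D f hD hdet mf
  have hint : ∀ i, ∫⁻ z, f i z ≤
      ENNReal.ofReal (4 ^ 2 * 11 ^ 16 * ρ ^ 2) * tub (L * ρ) (I i) (v i) (g i) xQ tQ := by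
    intro i
    rw [hf]
    simp only
    rw [lintegral_indicator Metric.isClosed_closedBall.measurableSet]
    exact int_tub ρ L (I i) (v i) (g i) (hg i) xQ tQ hρ hL
  calc ∫⁻ t in Icc (tQ - L * ρ) (tQ + L * ρ), ∫⁻ x in Metric.closedBall xQ (L * ρ),
      ∏ i, (tub ρ (I i) (v i) (g i) x t) ^ (1 / 2 : ℝ)
      ≤ ∫⁻ t in Icc (tQ - L * ρ) (tQ + L * ρ), ∫⁻ x : ℝ × ℝ,
        ENNReal.ofReal (2 ^ 24) * ∏ i, (f i (x - (t - tQ) • v₀ i)) ^ (1 / 2 : ℝ) := by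
        apply setLIntegral_mono' measurableSet_Icc
        intro t ht
        refine le_trans (setLIntegral_mono' Metric.isClosed_closedBall.measurableSet ?_)
          (setLIntegral_le_lintegral (Metric.closedBall xQ (L * ρ)) _)
        intro x hx
        calc ∏ i, (tub ρ (I i) (v i) (g i) x t) ^ (1 / 2 : ℝ)
            ≤ ∏ i, (ENNReal.ofReal (2 ^ 16) * f i (x - (t - tQ) • v₀ i)) ^ (1 / 2 : ℝ) := by
              apply Finset.prod_le_prod'
              intro i _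
              exact ENNReal.rpow_le_rpow (key t ht x hx i) (by norm_num)
          _ = ENNReal.ofReal (2 ^ 24) * ∏ i, (f i (x - (t - tQ) • v₀ i)) ^ (1 / 2 : ℝ) := by
              simp only [ENNReal.mul_rpow_of_nonneg _ _ (by norm_num : (0 : ℝ) ≤ 1 / 2)]
              rw [Finset.prod_mul_distrib]
              congr 1
              rw [Finset.prod_const, ENNReal.ofReal_rpow_of_nonneg (by positivity) (by norm_num),
                ← ENNReal.ofReal_pow (by positivity)]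
              congr 1
              rw [← Real.rpow_natCast, ← Real.rpow_mul (by positivity)]
              simp only [Finset.card_univ, Fintype.card_fin]
              rw [← Real.rpow_natCast 2 16, ← Real.rpow_mul (by norm_num)]
              norm_num
    _ ≤ ∫⁻ t : ℝ, ∫⁻ x : ℝ × ℝ,
        ENNReal.ofReal (2 ^ 24) * ∏ i, (f i (x - (t - tQ) • v₀ i)) ^ (1 / 2 : ℝ) :=
        setLIntegral_le_lintegral _ _
    _ = ∫⁻ t : ℝ, ∫⁻ x : ℝ × ℝ,
        ENNReal.ofReal (2 ^ 24) * ∏ i, (f i (x - t • v₀ i)) ^ (1 / 2 : ℝ) := by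
        exact lintegral_sub_right_eq_self (fun t : ℝ => ∫⁻ x : ℝ × ℝ,
          ENNReal.ofReal (2 ^ 24) * ∏ i, (f i (x - t • v₀ i)) ^ (1 / 2 : ℝ)) tQ
    _ = ENNReal.ofReal (2 ^ 24) * ∫⁻ t : ℝ, ∫⁻ x : ℝ × ℝ,
        ∏ i, (f i (x - t • v₀ i)) ^ (1 / 2 : ℝ) := by
        simp only [lintegral_const_mul' _ _ ENNReal.ofReal_ne_top]
    _ ≤ ENNReal.ofReal (2 ^ 24) * (ENNReal.ofReal (D ^ (-(1 / 2) : ℝ)) *
        ∏ i, (∫⁻ y, f i y) ^ (1 / 2 : ℝ)) := by gcongr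
    _ ≤ ENNReal.ofReal (2 ^ 24) * (ENNReal.ofReal (D ^ (-(1 / 2) : ℝ)) *
        ∏ i, (ENNReal.ofReal (4 ^ 2 * 11 ^ 16 * ρ ^ 2) *
          tub (L * ρ) (I i) (v i) (g i) xQ tQ) ^ (1 / 2 : ℝ)) := by
        gcongr with i _
        exact hint i
    _ ≤ _ := by
        simp only [ENNReal.mul_rpow_of_nonneg _ _ (by norm_num : (0 : ℝ) ≤ 1 / 2)]
        rw [Finset.prod_mul_distrib, ← mul_assoc, ← mul_assoc]
        gcongr
        rw [Finset.prod_const, ENNReal.ofReal_rpow_of_nonneg (by positivity) (by norm_num),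
          ← ENNReal.ofReal_pow (by positivity), ← ENNReal.ofReal_mul (by positivity),
          ← ENNReal.ofReal_mul (by positivity)]
        apply ENNReal.ofReal_le_ofReal
        have e : (4 ^ 2 * 11 ^ 16 * ρ ^ 2 : ℝ) ^ (1 / 2 : ℝ) = 4 * 11 ^ 8 * ρ := by
          rw [← Real.sqrt_eq_rpow]
          have : (4 ^ 2 * 11 ^ 16 * ρ ^ 2 : ℝ) = (4 * 11 ^ 8 * ρ) ^ 2 := by ring
          rw [this, Real.sqrt_sq (by positivity)]
        rw [e]
        simp only [Finset.card_univ, Fintype.card_fin]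
        unfold K1
        have : (4 * 11 ^ 8 * ρ) ^ 3 ≤ (4 * 11 ^ 16) ^ 3 * ρ ^ 3 := by
          rw [← mul_pow]
          gcongr
          · norm_num
          · norm_num
        calc _ ≤ 2 ^ 24 * D ^ (-(1 / 2) : ℝ) * ((4 * 11 ^ 16) ^ 3 * ρ ^ 3) := by gcongr
          _ = _ := by ring

end Pool.Agent.H67.LS
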